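import Mathlib
import Pool.Agent.TH559.LE.Bkw

set_option autoImplicit false

/-!
# Total colourings from lists, relative to a set of uncoloured vertices: two reductions
-/

namespace Pool.Agent.V1126.TC

open Finset

variable {V : Type} [Fintype V]

/-- Total colourings from lists in which the vertices of `P` have no colour. -/
structure Col (F : SimpleGraph V) (P : Finset V) (LV : V → Finset ℕ) (LE : V → V → Finset ℕ)
    (cV : V → ℕ) (cE : V → V → ℕ) : Prop where
  sym : ∀ u v, F.Adj u v → cE u v = cE v u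
  lv : ∀ v, v ∉ P → cV v ∈ LV v
  le : ∀ u v, F.Adj u v → cE u v ∈ LE u v
  vv : ∀ u v, F.Adj u v → u ∉ P → v ∉ P → cV u ≠ cV v
  ve : ∀ u v, F.Adj u v → u ∉ P → cV u ≠ cE u v
  ee : ∀ u v w, F.Adj u v → F.Adj u w → v ≠ w → cE u v ≠ cE u w

open Classical in
/-- The degree. -/
noncomputable def dg (F : SimpleGraph V) (v : V) : ℕ := (univ.filter (fun w => F.Adj v w)).card

/-- Deletion of one edge. -/
def del (F : SimpleGraph V) (u v : V) : SimpleGraph V where
  Adj a b := F.Adj a b ∧ s(a, b) ≠ s(u, v)
  symm := ⟨fun a b h => ⟨h.1.symm, fun h' => h.2 (by rw [Sym2.eq_swap]; exact h')⟩⟩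
  loopless := ⟨fun a h => F.loopless.irrefl a h.1⟩

/-- Deletion of all edges at the vertices of `A`. -/
def cut (F : SimpleGraph V) (A : Finset V) : SimpleGraph V where
  Adj a b := F.Adj a b ∧ a ∉ A ∧ b ∉ A
  symm := ⟨fun _ _ h => ⟨h.1.symm, h.2.2, h.2.1⟩⟩
  loopless := ⟨fun a h => F.loopless.irrefl a h.1⟩

open Classical in
theorem single {F : SimpleGraph V} {P : Finset V} {LV : V → Finset ℕ} {LE : V → V → Finset ℕ}
    (hLE : ∀ u v, LE u v = LE v u) {u v : V} (huv : F.Adj u v)
    (hu : u ∉ P → 2 * dg F u < (LV u).card)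
    (hcard : dg F u + dg F v ≤ (LE u v).card + (if v ∈ P then 1 else 0))
    (h : ∃ cV cE, Col (del F u v) P LV LE cV cE) : ∃ cV cE, Col F P LV LE cV cE := by
  obtain ⟨cV, cE, hc⟩ := h
  set Nu := univ.filter (fun w => F.Adj u w) with hNu
  set Nv := univ.filter (fun w => F.Adj v w) with hNv
  have hvu : v ∈ Nu := by simp [hNu, huv]
  have huv' : u ∈ Nv := by simp [hNv, huv.symm]
  have cu : dg F u = Nu.card := rfl
  have cv : dg F v = Nv.card := rfl
  have c1 : ((Nu.erase v).image (cE u)).card + 1 ≤ dg F u := by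
    have h1 := Finset.card_image_le (s := Nu.erase v) (f := cE u)
    have h2 := Finset.card_erase_add_one hvu
    omega
  have c2 : ((Nv.erase u).image (cE v)).card + 1 ≤ dg F v := by
    have h1 := Finset.card_image_le (s := Nv.erase u) (f := cE v)
    have h2 := Finset.card_erase_add_one huv'
    omega
  obtain ⟨α, hα1, hα2⟩ : ∃ α ∈ LE u v, α ∉ ((Nu.erase v).image (cE u) ∪ (Nv.erase u).image (cE v))
      ∪ (if v ∈ P then ∅ else {cV v}) := by
    by_contra hcon
    push Not at hcon
    have h1 := Finset.card_le_card (show LE u v ⊆ _ from hcon)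
    have h2 := Finset.card_union_le ((Nu.erase v).image (cE u) ∪ (Nv.erase u).image (cE v))
      (if v ∈ P then ∅ else {cV v})
    have h3 := Finset.card_union_le ((Nu.erase v).image (cE u)) ((Nv.erase u).image (cE v))
    by_cases hv : v ∈ P
    · simp only [hv, if_true, Finset.card_empty] at h1 h2 hcard
      omega
    · simp only [hv, if_false, Finset.card_singleton] at h1 h2 hcard
      omega
  rw [Finset.mem_union, Finset.mem_union, not_or, not_or] at hα2
  obtain ⟨⟨hα2, hα3⟩, hα4⟩ := hα2
  have ha2 : ∀ w, F.Adj u w → w ≠ v → α ≠ cE u w := by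
    intro w hw hwv h
    exact hα2 (Finset.mem_image.2 ⟨w, by simp [hNu, hw, hwv], h.symm⟩)
  have ha3 : ∀ w, F.Adj v w → w ≠ u → α ≠ cE v w := by
    intro w hw hwv h
    exact hα3 (Finset.mem_image.2 ⟨w, by simp [hNv, hw, hwv], h.symm⟩)
  have ha4 : v ∉ P → cV v ≠ α := by
    intro hv h
    rw [if_neg hv, Finset.mem_singleton] at hα4
    exact hα4 h.symm
  set cE' : V → V → ℕ := fun a b => if s(a, b) = s(u, v) then α else cE a b with hcE'
  obtain ⟨β, hβ⟩ : ∃ β, u ∉ P → β ∈ LV u ∧ (∀ w, F.Adj u w → β ≠ cV w) ∧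
      ∀ w, F.Adj u w → β ≠ cE' u w := by
    by_cases hP : u ∈ P
    · exact ⟨0, fun h => absurd hP h⟩
    · obtain ⟨β, hβ1, hβ2⟩ : ∃ β ∈ LV u, β ∉ Nu.image cV ∪ Nu.image (cE' u) := by
        by_contra hcon
        push Not at hcon
        have h1 := Finset.card_le_card (show LV u ⊆ _ from hcon)
        have h2 := Finset.card_union_le (Nu.image cV) (Nu.image (cE' u))
        have h3 := Finset.card_image_le (s := Nu) (f := cV)
        have h4 := Finset.card_image_le (s := Nu) (f := cE' u)
        have h5 := hu hP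
        omega
      rw [Finset.mem_union, not_or] at hβ2
      refine ⟨β, fun _ => ⟨hβ1, fun w hw h => ?_, fun w hw h => ?_⟩⟩
      · exact hβ2.1 (Finset.mem_image.2 ⟨w, by simp [hNu, hw], h.symm⟩)
      · exact hβ2.2 (Finset.mem_image.2 ⟨w, by simp [hNu, hw], h.symm⟩)
  have hne : u ≠ v := huv.ne
  have key : ∀ a b, s(a, b) = s(u, v) ↔ (a = u ∧ b = v) ∨ (a = v ∧ b = u) := by
    intro a b
    rw [Sym2.eq_iff]
  refine ⟨Function.update cV u β, cE', ?_, ?_, ?_, ?_, ?_, ?_⟩
  · intro a b hab
    simp only [hcE']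
    by_cases h : s(a, b) = s(u, v)
    · rw [if_pos h, if_pos (by rw [Sym2.eq_swap]; exact h)]
    · rw [if_neg h, if_neg (by rw [Sym2.eq_swap]; exact h)]
      exact hc.sym a b ⟨hab, h⟩
  · intro a ha
    by_cases h : a = u
    · subst h
      rw [Function.update_self]
      exact (hβ ha).1
    · rw [Function.update_of_ne h]
      exact hc.lv a ha
  · intro a b hab
    simp only [hcE']
    by_cases h : s(a, b) = s(u, v)
    · rw [if_pos h]
      rcases (key a b).1 h with ⟨rfl, rfl⟩ | ⟨rfl, rfl⟩
      · exact hα1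
      · rw [hLE]; exact hα1
    · rw [if_neg h]
      exact hc.le a b ⟨hab, h⟩
  · intro a b hab ha hb
    by_cases h : a = u
    · subst h
      rw [Function.update_self, Function.update_of_ne hab.ne']
      exact (hβ ha).2.1 b hab
    · by_cases h' : b = u
      · subst h'
        rw [Function.update_self, Function.update_of_ne h]
        exact ((hβ hb).2.1 a hab.symm).symm
      · rw [Function.update_of_ne h, Function.update_of_ne h']
        refine hc.vv a b ⟨hab, fun h'' => ?_⟩ ha hb
        rcases (key a b).1 h'' with ⟨h1, _⟩ | ⟨_, h1⟩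
        · exact h h1
        · exact h' h1
  · intro a b hab ha
    by_cases h : a = u
    · subst h
      rw [Function.update_self]
      exact (hβ ha).2.2 b hab
    · rw [Function.update_of_ne h]
      simp only [hcE']
      by_cases h' : s(a, b) = s(u, v)
      · rw [if_pos h']
        rcases (key a b).1 h' with ⟨h1, _⟩ | ⟨h1, _⟩
        · exact absurd h1 h
        · subst h1
          exact ha4 ha
      · rw [if_neg h']
        exact hc.ve a b ⟨hab, h'⟩ ha
  · intro a b c hab hac hbc
    simp only [hcE']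
    by_cases h1 : s(a, b) = s(u, v)
    · rw [if_pos h1]
      by_cases h2 : s(a, c) = s(u, v)
      · exfalso
        have h3 : s(a, b) = s(a, c) := h1.trans h2.symm
        rw [Sym2.congr_right] at h3
        exact hbc h3
      · rw [if_neg h2]
        rcases (key a b).1 h1 with ⟨rfl, rfl⟩ | ⟨rfl, rfl⟩
        · exact ha2 c hac hbc.symm
        · exact ha3 c hac hbc.symm
    · rw [if_neg h1]
      by_cases h2 : s(a, c) = s(u, v)
      · rw [if_pos h2]
        rcases (key a c).1 h2 with ⟨rfl, rfl⟩ | ⟨rfl, rfl⟩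
        · exact (ha2 b hab hbc).symm
        · exact (ha3 b hab hbc).symm
      · rw [if_neg h2]
        exact hc.ee a b c ⟨hab, h1⟩ ⟨hac, h2⟩ hbc

open Classical in
theorem extend {F : SimpleGraph V} {P : Finset V} {LV : V → Finset ℕ} {LE : V → V → Finset ℕ}
    (hLE : ∀ u v, LE u v = LE v u) (A : Finset V)
    (hind : ∀ x ∈ A, ∀ y ∈ A, ¬ F.Adj x y) (hLV : ∀ x ∈ A, 2 * dg F x < (LV x).card)
    (hcard : ∀ x ∈ A, ∀ y, F.Adj x y → max (dg F x) (A.filter (fun z => F.Adj y z)).card +
      (dg F y - (A.filter (fun z => F.Adj y z)).card) + (if y ∈ P then 0 else 1) ≤ (LE x y).card)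
    (h : ∃ cV cE, Col (cut F A) P LV LE cV cE) : ∃ cV cE, Col F P LV LE cV cE := by
  obtain ⟨cV, cE, hc⟩ := h
  set E : Finset (V × V) := univ.filter (fun e => e.1 ∈ A ∧ F.Adj e.1 e.2) with hE
  set B : V → Finset ℕ := fun y => (univ.filter (fun w => F.Adj y w ∧ w ∉ A)).image (cE y) ∪
    (if y ∈ P then ∅ else {cV y}) with hB
  have hBc : ∀ y, (B y).card ≤ (dg F y - (A.filter (fun z => F.Adj y z)).card) +
      (if y ∈ P then 0 else 1) := by
    intro y
    have h1 := Finset.card_union_le ((univ.filter (fun w => F.Adj y w ∧ w ∉ A)).image (cE y))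
      (if y ∈ P then ∅ else {cV y})
    have h2 := Finset.card_image_le (s := univ.filter (fun w => F.Adj y w ∧ w ∉ A)) (f := cE y)
    have h3 : (univ.filter (fun w => F.Adj y w ∧ w ∉ A)).card +
        (A.filter (fun z => F.Adj y z)).card = dg F y := by
      unfold dg
      rw [← Finset.card_union_of_disjoint]
      · congr 1
        ext w
        simp only [Finset.mem_union, Finset.mem_filter, Finset.mem_univ, true_and]
        tauto
      · rw [Finset.disjoint_left]
        intro w hw hw'
        simp only [Finset.mem_filter, Finset.mem_univ, true_and] at hw hw'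
        exact hw.2 hw'.1
    have h4 : (if y ∈ P then (∅ : Finset ℕ) else {cV y}).card ≤ (if y ∈ P then 0 else 1) := by
      by_cases hy : y ∈ P
      · simp [hy]
      · simp [hy]
    show (B y).card ≤ _
    simp only [hB]
    omega
  obtain ⟨φ, hφ⟩ := Pool.Agent.TH559.LE.bkw E (fun e => LE e.1 e.2 \ B e.2) (by
    intro e he
    rw [hE, Finset.mem_filter] at he
    obtain ⟨-, heA, headj⟩ := he
    have h1 := hcard e.1 heA e.2 headj
    have h2 := hBc e.2
    have h3 := Finset.le_card_sdiff (B e.2) (LE e.1 e.2)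
    have h4 : (E.filter (fun f => f.1 = e.1)).card ≤ dg F e.1 := by
      unfold dg
      apply Finset.card_le_card_of_injOn (fun f => f.2)
      · intro f hf
        rw [Finset.mem_coe, Finset.mem_filter, hE, Finset.mem_filter] at hf
        rw [Finset.mem_coe, Finset.mem_filter]
        refine ⟨Finset.mem_univ _, ?_⟩
        rw [← hf.2]
        exact hf.1.2.2
      · intro f hf g hg hfg
        rw [Finset.mem_coe, Finset.mem_filter] at hf hg
        exact Prod.ext (hf.2.trans hg.2.symm) hfg
    have h5 : (E.filter (fun f => f.2 = e.2)).card ≤ (A.filter (fun z => F.Adj e.2 z)).card := by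
      apply Finset.card_le_card_of_injOn (fun f => f.1)
      · intro f hf
        rw [Finset.mem_coe, Finset.mem_filter, hE, Finset.mem_filter] at hf
        rw [Finset.mem_coe, Finset.mem_filter]
        refine ⟨hf.1.2.1, ?_⟩
        rw [← hf.2]
        exact hf.1.2.2.symm
      · intro f hf g hg hfg
        rw [Finset.mem_coe, Finset.mem_filter] at hf hg
        exact Prod.ext hfg (hf.2.trans hg.2.symm)
    have h6 := max_le_max h4 h5
    have h7 : max (dg F e.1) (A.filter (fun z => F.Adj e.2 z)).card ≤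
        (LE e.1 e.2 \ B e.2).card := by omega
    have h8 := le_trans h6 h7
    convert h8)
  have hφ1 : ∀ x ∈ A, ∀ y, F.Adj x y → φ (x, y) ∈ LE x y ∧ φ (x, y) ∉ B y := by
    intro x hx y hxy
    have h1 := (hφ (x, y) (by rw [hE, Finset.mem_filter]; exact ⟨Finset.mem_univ _, hx, hxy⟩)).1
    rw [Finset.mem_sdiff] at h1
    exact h1
  have hφ2 : ∀ x ∈ A, ∀ y z, F.Adj x y → F.Adj x z → y ≠ z → φ (x, y) ≠ φ (x, z) := by
    intro x hx y z hxy hxz hyz
    have h1 := (hφ (x, z) (by rw [hE, Finset.mem_filter]; exact ⟨Finset.mem_univ _, hx, hxz⟩)).2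
    exact h1 (x, y) (by rw [hE, Finset.mem_filter]; exact ⟨Finset.mem_univ _, hx, hxy⟩)
      (fun h => hyz (Prod.mk.inj h).2) (Or.inl rfl)
  have hφ3 : ∀ x ∈ A, ∀ x' ∈ A, ∀ y, F.Adj x y → F.Adj x' y → x ≠ x' → φ (x, y) ≠ φ (x', y) := by
    intro x hx x' hx' y hxy hxz hyz
    have h1 := (hφ (x', y) (by rw [hE, Finset.mem_filter]; exact ⟨Finset.mem_univ _, hx', hxz⟩)).2
    exact h1 (x, y) (by rw [hE, Finset.mem_filter]; exact ⟨Finset.mem_univ _, hx, hxy⟩)
      (fun h => hyz (Prod.mk.inj h).1) (Or.inr rfl)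
  have hB1 : ∀ y w, F.Adj y w → w ∉ A → cE y w ∈ B y := by
    intro y w h1 h2
    simp only [hB]
    exact Finset.mem_union_left _ (Finset.mem_image.2 ⟨w, by simp [h1, h2], rfl⟩)
  have hB2 : ∀ y, y ∉ P → cV y ∈ B y := by
    intro y h1
    simp only [hB]
    apply Finset.mem_union_right
    simp [h1]
  have hne : ∀ x ∈ A, ∃ β ∈ LV x, (∀ w, F.Adj x w → β ≠ cV w) ∧ ∀ w, F.Adj x w → β ≠ φ (x, w) := by
    intro x hx
    set Nx := univ.filter (fun w => F.Adj x w) with hNx
    obtain ⟨β, hβ1, hβ2⟩ : ∃ β ∈ LV x, β ∉ Nx.image cV ∪ Nx.image (fun w => φ (x, w)) := by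
      by_contra hcon
      push Not at hcon
      have h1 := Finset.card_le_card (show LV x ⊆ _ from hcon)
      have h2 := Finset.card_union_le (Nx.image cV) (Nx.image (fun w => φ (x, w)))
      have h3 := Finset.card_image_le (s := Nx) (f := cV)
      have h4 := Finset.card_image_le (s := Nx) (f := fun w => φ (x, w))
      have h5 := hLV x hx
      have h6 : dg F x = Nx.card := rfl
      omega
    rw [Finset.mem_union, not_or] at hβ2
    refine ⟨β, hβ1, fun w hw h => ?_, fun w hw h => ?_⟩
    · exact hβ2.1 (Finset.mem_image.2 ⟨w, by simp [hNx, hw], h.symm⟩)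
    · exact hβ2.2 (Finset.mem_image.2 ⟨w, by simp [hNx, hw], h.symm⟩)
  choose! β hβ1 hβ2 hβ3 using hne
  refine ⟨fun x => if x ∈ A then β x else cV x, fun a b => if a ∈ A then φ (a, b) else
    if b ∈ A then φ (b, a) else cE a b, ?_, ?_, ?_, ?_, ?_, ?_⟩
  · intro a b hab
    by_cases ha : a ∈ A
    · have hb : b ∉ A := fun hb => hind a ha b hb hab
      simp [ha, hb]
    · by_cases hb : b ∈ A
      · simp [ha, hb]
      · simp only [ha, hb, if_false]
        exact hc.sym a b ⟨hab, ha, hb⟩
  · intro a haP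
    by_cases ha : a ∈ A
    · simp only [ha, if_true]
      exact hβ1 a ha
    · simp only [ha, if_false]
      exact hc.lv a haP
  · intro a b hab
    by_cases ha : a ∈ A
    · simp only [ha, if_true]
      exact (hφ1 a ha b hab).1
    · by_cases hb : b ∈ A
      · simp only [ha, hb, if_true, if_false]
        rw [hLE]
        exact (hφ1 b hb a hab.symm).1
      · simp only [ha, hb, if_false]
        exact hc.le a b ⟨hab, ha, hb⟩
  · intro a b hab haP hbP
    by_cases ha : a ∈ A
    · have hb : b ∉ A := fun hb => hind a ha b hb hab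
      simp only [ha, hb, if_true, if_false]
      exact hβ2 a ha b hab
    · by_cases hb : b ∈ A
      · simp only [ha, hb, if_true, if_false]
        exact (hβ2 b hb a hab.symm).symm
      · simp only [ha, hb, if_false]
        exact hc.vv a b ⟨hab, ha, hb⟩ haP hbP
  · intro a b hab haP
    by_cases ha : a ∈ A
    · simp only [ha, if_true]
      exact hβ3 a ha b hab
    · by_cases hb : b ∈ A
      · simp only [ha, hb, if_true, if_false]
        intro h
        have := (hφ1 b hb a hab.symm).2
        rw [← h] at this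
        exact this (hB2 a haP)
      · simp only [ha, hb, if_false]
        exact hc.ve a b ⟨hab, ha, hb⟩ haP
  · intro a b c hab hac hbc
    by_cases ha : a ∈ A
    · simp only [ha, if_true]
      exact hφ2 a ha b c hab hac hbc
    · simp only [ha, if_false]
      by_cases hb : b ∈ A
      · by_cases hcA : c ∈ A
        · simp only [hb, hcA, if_true]
          exact hφ3 b hb c hcA a hab.symm hac.symm hbc
        · simp only [hb, hcA, if_true, if_false]
          intro h
          have := (hφ1 b hb a hab.symm).2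
          rw [h] at this
          exact this (hB1 a c hac hcA)
      · by_cases hcA : c ∈ A
        · simp only [hb, hcA, if_true, if_false]
          intro h
          have := (hφ1 c hcA a hac.symm).2
          rw [← h] at this
          exact this (hB1 a b hab hb)
        · simp only [hb, hcA, if_false]
          exact hc.ee a b c ⟨hab, ha, hb⟩ ⟨hac, ha, hcA⟩ hbc

end Pool.Agent.V1126.TC
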