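import Mathlib
import Pool.Agent.V1126.TC.Red

set_option autoImplicit false

/-!
# Total colourings from lists of sparse graphs, relative to a set of uncoloured vertices
-/

namespace Pool.Agent.V1126.TC

open Finset

open Classical in
/-- The average degree of every nonempty induced subgraph is less than `m`. -/
def Sp {V : Type} (F : SimpleGraph V) (m : ℕ) : Prop :=
  ∀ X : Finset V, X.Nonempty → ∑ v ∈ X, (X.filter (fun w => F.Adj v w)).card < m * X.card

theorem Sp.mono {V : Type} {F F' : SimpleGraph V} {m : ℕ} (h : Sp F m)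
    (hF : ∀ a b, F'.Adj a b → F.Adj a b) : Sp F' m := by
  classical
  intro X hX
  refine lt_of_le_of_lt (Finset.sum_le_sum fun v _ => ?_) (h X hX)
  exact Finset.card_le_card fun w hw => by
    rw [Finset.mem_filter] at hw ⊢
    exact ⟨hw.1, hF _ _ hw.2⟩

open Classical in
/-- If every nonempty subset of `A` meets some neighbourhood in between `1` and `k` points then
`A` is small. -/
theorem peel {V : Type} (F : SimpleGraph V) (k : ℕ) (A Y : Finset V)
    (hY : ∀ x ∈ A, ∀ y, F.Adj x y → y ∈ Y)
    (h : ∀ S ⊆ A, S.Nonempty → ∃ y, 1 ≤ (S.filter (fun x => F.Adj y x)).card ∧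
      (S.filter (fun x => F.Adj y x)).card ≤ k) : A.card ≤ k * Y.card := by
  have main : ∀ n, ∀ S ⊆ A, S.card = n →
      S.card ≤ k * (Y.filter (fun y => ∃ x ∈ S, F.Adj y x)).card := by
    intro n
    induction n using Nat.strong_induction_on with
    | _ n IH =>
      intro S hS hn
      rcases S.eq_empty_or_nonempty with h0 | h0
      · subst h0
        simp
      · obtain ⟨y, hy1, hy2⟩ := h S hS h0
        set T := S.filter (fun x => ¬ F.Adj y x) with hT
        have e1 : (S.filter (fun x => F.Adj y x)).card + T.card = S.card :=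
          Finset.card_filter_add_card_filter_not _
        have hTS : T ⊆ S := Finset.filter_subset _ _
        have h2 := IH T.card (by omega) T (hTS.trans hS) rfl
        obtain ⟨x0, hx0⟩ : (S.filter (fun x => F.Adj y x)).Nonempty := by
          rw [← Finset.card_pos]; omega
        rw [Finset.mem_filter] at hx0
        have hyY : y ∈ Y.filter (fun y => ∃ x ∈ S, F.Adj y x) := by
          rw [Finset.mem_filter]
          exact ⟨hY x0 (hS hx0.1) y hx0.2.symm, x0, hx0.1, hx0.2⟩
        have h3 : (Y.filter (fun y => ∃ x ∈ T, F.Adj y x)).card <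
            (Y.filter (fun y => ∃ x ∈ S, F.Adj y x)).card := by
          refine Finset.card_lt_card ?_
          rw [Finset.ssubset_iff_of_subset (fun w hw => by
            rw [Finset.mem_filter] at hw ⊢
            obtain ⟨a, x, hx, hx'⟩ := hw
            exact ⟨a, x, hTS hx, hx'⟩)]
          refine ⟨y, hyY, ?_⟩
          rw [Finset.mem_filter]
          rintro ⟨_, x, hx, hx'⟩
          rw [hT, Finset.mem_filter] at hx
          exact hx.2 hx'
        have h4 : k * (Y.filter (fun y => ∃ x ∈ T, F.Adj y x)).card + k ≤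
            k * (Y.filter (fun y => ∃ x ∈ S, F.Adj y x)).card := by
          rw [← Nat.mul_succ]
          exact Nat.mul_le_mul_left k h3
        omega
  refine (main A.card A (Finset.Subset.refl _) rfl).trans ?_
  exact Nat.mul_le_mul_left k (Finset.card_le_card (Finset.filter_subset _ _))

/-- The sum of the numbers `i - 1 - s` over an interval. -/
theorem sum_levels (s j : ℕ) (hj : s + 2 ≤ j) : ∀ n, j ≤ n + 1 →
    2 * ((∑ i ∈ Finset.Icc j n, (i - 1 - s) : ℕ) : ℤ) =
      ((n : ℤ) - s) * (n - 1 - s) - ((j : ℤ) - 1 - s) * (j - 2 - s) := by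
  intro n hn
  induction n with
  | zero => omega
  | succ n ih =>
    rcases Nat.lt_or_ge n j with h | h
    · rcases (by omega : j = n + 1 ∨ j = n + 2) with h' | h'
      · subst h'
        rw [Finset.Icc_self, Finset.sum_singleton]
        have : ((n + 1 - 1 - s : ℕ) : ℤ) = (n : ℤ) - s := by omega
        rw [this]
        push_cast
        ring
      · subst h'
        rw [Finset.Icc_eq_empty (by omega), Finset.sum_empty]
        push_cast
        ring
    · rw [Finset.sum_Icc_succ_top (by omega)]
      have h1 := ih (by omega)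
      have : ((n + 1 - 1 - s : ℕ) : ℤ) = (n : ℤ) - s := by omega
      push_cast at h1 this ⊢
      rw [mul_add, h1, this]
      ring

variable {V : Type} [Fintype V]

theorem dg_mono {F F' : SimpleGraph V} (hF : ∀ a b, F'.Adj a b → F.Adj a b) (v : V) :
    dg F' v ≤ dg F v := by
  classical
  exact Finset.card_le_card fun w hw => by
    rw [Finset.mem_filter] at hw ⊢
    exact ⟨hw.1, hF _ _ hw.2⟩

theorem sum_dg_lt {F F' : SimpleGraph V} (hF : ∀ a b, F'.Adj a b → F.Adj a b) {u v : V}
    (h1 : F.Adj u v) (h2 : ¬ F'.Adj u v) : ∑ w, dg F' w < ∑ w, dg F w := by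
  classical
  refine Finset.sum_lt_sum (fun w _ => dg_mono hF w) ⟨u, Finset.mem_univ _, ?_⟩
  refine Finset.card_lt_card ?_
  rw [Finset.ssubset_iff_of_subset (fun w hw => by
    rw [Finset.mem_filter] at hw ⊢
    exact ⟨hw.1, hF _ _ hw.2⟩)]
  exact ⟨v, by simp [h1], by simp [h2]⟩

theorem reduced {m D s : ℕ} (hm : 2 ≤ m) (hs : s ≤ 1)
    (hD : m * m + 3 * m ≤ 2 * D + 2 + s * (2 * m - 4)) (hD' : 4 * m ≤ D + 3 + s) (P : Finset V)
    (LV : V → Finset ℕ) (LE : V → V → Finset ℕ) (hLE : ∀ u v, LE u v = LE v u)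
    (hLV : ∀ v, v ∉ P → 2 * m - 1 ≤ (LV v).card)
    (hLE1 : ∀ u v, u ∉ P → v ∉ P → D + 1 + s ≤ (LE u v).card)
    (hLE2 : ∀ u v, ¬ (u ∈ P ∧ v ∈ P) → D + s ≤ (LE u v).card + 1) :
    ∀ (n : ℕ) (F : SimpleGraph V), ∑ v, dg F v = n → (∀ v, dg F v ≤ D) →
      (∀ p ∈ P, dg F p + 1 ≤ D) → (∀ u ∈ P, ∀ v ∈ P, ¬ F.Adj u v) →
      (∀ y, ∀ p ∈ P, ∀ q ∈ P, ∀ r ∈ P, F.Adj y p → F.Adj y q → F.Adj y r →
        p = q ∨ p = r ∨ q = r) → Sp F m →
      ∃ cV cE, Col F P LV LE cV cE := by
  classical
  intro n
  induction n using Nat.strong_induction_on with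
  | _ n IH =>
  intro F hn hdeg hdegP hPP hP2 hsp
  by_contra hcon
  -- the colouring of proper subgraphs
  have sub : ∀ (F' : SimpleGraph V), (∀ a b, F'.Adj a b → F.Adj a b) →
      (∃ u v, F.Adj u v ∧ ¬ F'.Adj u v) → ∃ cV cE, Col F' P LV LE cV cE := by
    intro F' hF' ⟨u, v, h1, h2⟩
    refine IH (∑ w, dg F' w) ?_ F' rfl (fun v => (dg_mono hF' v).trans (hdeg v))
      (fun p hp => ?_) (fun u hu v hv h => hPP u hu v hv (hF' u v h))
      (fun y p hp q hq r hr h1 h2 h3 => hP2 y p hp q hq r hr (hF' _ _ h1) (hF' _ _ h2) (hF' _ _ h3))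
      (hsp.mono hF')
    · rw [← hn]
      exact sum_dg_lt hF' h1 h2
    · have := dg_mono hF' p
      have := hdegP p hp
      omega
  -- low vertices have neighbours of large degree
  have hsingle : ∀ u v, F.Adj u v → dg F u < m →
      (LE u v).card + (if v ∈ P then 1 else 0) < dg F u + dg F v := by
    intro u v huv hu
    by_contra hv
    push Not at hv
    apply hcon
    refine single hLE huv (fun huP => ?_) hv (sub (del F u v) (fun a b h => h.1)
      ⟨u, v, huv, fun h => h.2 rfl⟩)
    have := hLV u huP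
    omega
  have hlow1 : ∀ u v, F.Adj u v → dg F u < m → u ∉ P → v ∉ P → D + 2 + s ≤ dg F u + dg F v := by
    intro u v huv hu huP hvP
    have h1 := hsingle u v huv hu
    have h2 := hLE1 u v huP hvP
    rw [if_neg hvP] at h1
    omega
  have hlow2 : ∀ u v, F.Adj u v → dg F u < m → u ∉ P → D + 1 + s ≤ dg F u + dg F v := by
    intro u v huv hu huP
    by_cases hvP : v ∈ P
    · have h1 := hsingle u v huv hu
      have h2 := hLE2 u v (fun h => huP h.1)
      rw [if_pos hvP] at h1
      omega
    · have := hlow1 u v huv hu huP hvP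
      omega
  have hlow3 : ∀ u v, F.Adj u v → dg F u < m → D + s ≤ dg F u + dg F v := by
    intro u v huv hu
    by_cases huP : u ∈ P
    · have h1 := hsingle u v huv hu
      have hvP : v ∉ P := fun h => hPP u huP v h huv
      have h2 := hLE2 u v (fun h => hvP h.2)
      rw [if_neg hvP] at h1
      omega
    · have := hlow2 u v huv hu huP
      omega
  by_cases hne : ∃ u v, F.Adj u v
  swap
  · push Not at hne
    apply hcon
    have h1 : ∀ v, ∃ x, v ∉ P → x ∈ LV v := by
      intro v
      by_cases hv : v ∈ P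
      · exact ⟨0, fun h => absurd hv h⟩
      · have h2 := hLV v hv
        have h3 : 0 < (LV v).card := by omega
        obtain ⟨x, hx⟩ := Finset.card_pos.1 h3
        exact ⟨x, fun _ => hx⟩
    choose c hc using h1
    exact ⟨c, fun _ _ => 0, ⟨fun u v h => absurd h (hne u v), hc, fun u v h => absurd h (hne u v),
      fun u v h => absurd h (hne u v), fun u v h => absurd h (hne u v),
      fun u v _ h => absurd h (hne u v)⟩⟩
  obtain ⟨u0, v0, huv0⟩ := hne
  have dg_pos : ∀ u v, F.Adj u v → 1 ≤ dg F u := by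
    intro u v huv
    exact Finset.card_pos.2 ⟨v, by simp [huv]⟩
  set A : ℕ → Finset V := fun i => univ.filter (fun v => v ∉ P ∧ 1 ≤ dg F v ∧ dg F v ≤ i) with hA
  set N : ℕ → Finset V := fun i => univ.filter (fun y => ∃ x ∈ A i, F.Adj y x) with hN
  have memA : ∀ i v, v ∈ A i ↔ v ∉ P ∧ 1 ≤ dg F v ∧ dg F v ≤ i := by
    intro i v
    simp [hA]
  have memN : ∀ i y, y ∈ N i ↔ ∃ x ∈ A i, F.Adj y x := by
    intro i y
    simp [hN]
  -- the sizes of the sets of low vertices
  have hAc : ∀ i, i < m → (A i).card ≤ (i - 1 - s) * (N i).card := by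
    intro i hi
    refine peel F (i - 1 - s) (A i) (N i) (fun x hx y hxy => (memN i y).2 ⟨x, hx, hxy.symm⟩) ?_
    intro S hSA hSne
    by_contra hS
    push Not at hS
    have hS' : ∀ x ∈ S, ∀ y, F.Adj x y → i - 1 - s < (S.filter (fun x => F.Adj y x)).card :=
      fun x hx y hxy => hS y (Finset.card_pos.2 ⟨x, by rw [Finset.mem_filter]; exact ⟨hx, hxy.symm⟩⟩)
    have hlowS : ∀ x ∈ S, x ∉ P ∧ 1 ≤ dg F x ∧ dg F x ≤ i := fun x hx => (memA i x).1 (hSA hx)
    apply hcon
    refine extend hLE S ?_ ?_ ?_ (sub (cut F S) (fun a b h => h.1) ?_)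
    · intro x hx y hy hxy
      have h1 := hlowS x hx
      have h2 := hlowS y hy
      have h3 := hlow3 x y hxy (by omega)
      omega
    · intro x hx
      have h1 := hlowS x hx
      have h2 := hLV x h1.1
      omega
    · intro x hx y hxy
      have h1 := hlowS x hx
      have h2 := hS' x hx y hxy
      have h3 : (S.filter (fun z => F.Adj y z)).card ≤ dg F y := by
        refine Finset.card_le_card fun z hz => ?_
        rw [Finset.mem_filter] at hz ⊢
        exact ⟨Finset.mem_univ _, hz.2⟩
      have h6 : max (dg F x) (S.filter (fun z => F.Adj y z)).card ≤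
          (S.filter (fun z => F.Adj y z)).card + s := by
        apply max_le
        · omega
        · omega
      by_cases hyP : y ∈ P
      · rw [if_pos hyP]
        have h4 := hLE2 x y (fun h => h1.1 h.1)
        have h5 := hdegP y hyP
        omega
      · rw [if_neg hyP]
        have h4 := hLE1 x y h1.1 hyP
        have h5 := hdeg y
        omega
    · obtain ⟨x, hx⟩ := hSne
      obtain ⟨y, hy⟩ := Finset.card_pos.1 (show 0 < dg F x from (hlowS x hx).2.1)
      rw [Finset.mem_filter] at hy
      exact ⟨x, y, hy.2, fun h => h.2.1 hx⟩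
  -- the uncoloured low vertices
  set PL := univ.filter (fun v => v ∈ P ∧ 1 ≤ dg F v ∧ dg F v < m) with hPL
  set Y := univ.filter (fun y => ∃ p ∈ PL, F.Adj y p) with hYd
  have hPLc : PL.card ≤ 2 * Y.card := by
    have h1 : PL ⊆ Y.biUnion (fun y => P.filter (fun p => F.Adj y p)) := by
      intro p hp
      have hp' := hp
      rw [hPL, Finset.mem_filter] at hp
      obtain ⟨_, hp3, hp1, hp2⟩ := hp
      obtain ⟨y, hy⟩ := Finset.card_pos.1 (show 0 < dg F p from hp1)
      rw [Finset.mem_filter] at hy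
      rw [Finset.mem_biUnion]
      refine ⟨y, ?_, ?_⟩
      · rw [hYd, Finset.mem_filter]
        exact ⟨Finset.mem_univ _, p, hp', hy.2.symm⟩
      · rw [Finset.mem_filter]
        exact ⟨hp3, hy.2.symm⟩
    refine (Finset.card_le_card h1).trans (Finset.card_biUnion_le.trans ?_)
    refine (Finset.sum_le_card_nsmul _ _ 2 fun y _ => ?_).trans (by simp [mul_comm])
    by_contra h2
    push Not at h2
    rw [Finset.two_lt_card] at h2
    obtain ⟨p, hp, q, hq, r, hr, hpq, hpr, hqr⟩ := h2
    rw [Finset.mem_filter] at hp hq hr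
    rcases hP2 y p hp.1 q hq.1 r hr.1 hp.2 hq.2 hr.2 with h | h | h
    · exact hpq h
    · exact hpr h
    · exact hqr h
  -- the weights
  set w : V → ℕ := fun y => (∑ i ∈ Finset.Icc 1 (m - 1), if y ∈ N i then (i - 1 - s) else 0) +
    (if y ∈ Y then 2 * (m - 1) else 0) with hw
  have hwt : ∀ y, 0 < w y → w y + m ≤ dg F y := by
    intro y hwy
    by_cases hyN : y ∈ N (m - 1)
    · -- a neighbour of minimum degree
      have hex : ∃ j, ∃ x, x ∉ P ∧ F.Adj y x ∧ dg F x < m ∧ dg F x = j := by
        obtain ⟨x, hx, hyx⟩ := (memN (m - 1) y).1 hyN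
        have hx' := (memA (m - 1) x).1 hx
        exact ⟨dg F x, x, hx'.1, hyx, by omega, rfl⟩
      set j := Nat.find hex with hj
      obtain ⟨x, hxP, hyx, hxm, hxj⟩ := Nat.find_spec hex
      rw [← hj] at hxj
      have hjmin : ∀ i, i < m → y ∈ N i → j ≤ i := by
        intro i hi hy
        obtain ⟨z, hz, hyz⟩ := (memN i y).1 hy
        have hz' := (memA i z).1 hz
        have h1 : j ≤ dg F z := Nat.find_min' hex ⟨z, hz'.1, hyz, by omega, rfl⟩
        omega
      have hxpos := dg_pos x y hyx.symm
      have hj2 : s + 2 ≤ j := by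
        by_cases hyP : y ∈ P
        · have h1 := hlow2 x y hyx.symm hxm hxP
          have h2 := hdegP y hyP
          omega
        · have h1 := hlow1 x y hyx.symm hxm hxP hyP
          have h2 := hdeg y
          omega
      have hsum : (∑ i ∈ Finset.Icc 1 (m - 1), if y ∈ N i then (i - 1 - s) else 0) ≤
          ∑ i ∈ Finset.Icc j (m - 1), (i - 1 - s) := by
        rw [← Finset.sum_filter]
        refine Finset.sum_le_sum_of_subset fun i hi => ?_
        rw [Finset.mem_filter, Finset.mem_Icc] at hi
        rw [Finset.mem_Icc]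
        exact ⟨hjmin i (by omega) hi.2, hi.1.2⟩
      have hlev := sum_levels s j hj2 (m - 1) (by omega)
      have hcast : ((m - 1 : ℕ) : ℤ) = (m : ℤ) - 1 := by omega
      rw [hcast] at hlev
      set T := ∑ i ∈ Finset.Icc j (m - 1), (i - 1 - s) with hT
      have hbound : (2 * T : ℤ) + 2 * (j - 2 - s) + 6 * m - 4 ≤ 2 * D := by
        have hq : ((j : ℤ) - 2 - s) * 2 ≤ ((j : ℤ) - 1 - s) * (j - 2 - s) := by
          have h1 : (0 : ℤ) ≤ (j : ℤ) - 2 - s := by omega
          rcases h1.eq_or_lt with h2 | h2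
          · rw [← h2]; simp
          · have h3 : (1 : ℤ) ≤ (j : ℤ) - 2 - s := by omega
            nlinarith
        have hD2 : ((m : ℤ) * m + 3 * m) ≤ 2 * D + 2 + s * (2 * m - 4) := by
          have : ((2 * m - 4 : ℕ) : ℤ) = 2 * m - 4 := by omega
          rw [← this]
          exact_mod_cast hD
        rcases (by omega : s = 0 ∨ s = 1) with h0 | h0
        · subst h0
          push_cast at *
          nlinarith
        · subst h0
          push_cast at *
          nlinarith
      have hwle : w y ≤ T + (if y ∈ Y then 2 * (m - 1) else 0) := by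
        simp only [hw]
        omega
      by_cases hyP : y ∈ P
      · have hyY : y ∉ Y := by
          rw [hYd, Finset.mem_filter]
          rintro ⟨_, p, hp, hyp⟩
          rw [hPL, Finset.mem_filter] at hp
          exact hPP y hyP p hp.2.1 hyp
        rw [if_neg hyY] at hwle
        have h1 := hlow2 x y hyx.symm hxm hxP
        omega
      · have h1 := hlow1 x y hyx.symm hxm hxP hyP
        have h2 : (if y ∈ Y then 2 * (m - 1) else 0) ≤ 2 * (m - 1) := by
          split_ifs <;> omega
        omega
    · have hN0 : (∑ i ∈ Finset.Icc 1 (m - 1), if y ∈ N i then (i - 1 - s) else 0) = 0 := by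
        refine Finset.sum_eq_zero fun i hi => ?_
        rw [Finset.mem_Icc] at hi
        rw [if_neg]
        intro hy
        apply hyN
        obtain ⟨x, hx, hyx⟩ := (memN i y).1 hy
        refine (memN (m - 1) y).2 ⟨x, ?_, hyx⟩
        have hx' := (memA i x).1 hx
        exact (memA (m - 1) x).2 ⟨hx'.1, hx'.2.1, by omega⟩
      have hyY : y ∈ Y := by
        by_contra hyY
        simp only [hw, hN0, if_neg hyY] at hwy
        omega
      have hwy' : w y = 2 * (m - 1) := by
        simp only [hw, hN0, if_pos hyY, zero_add]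
      rw [hYd, Finset.mem_filter] at hyY
      obtain ⟨_, p, hp, hyp⟩ := hyY
      rw [hPL, Finset.mem_filter] at hp
      have h1 := hlow3 p y hyp.symm hp.2.2.2
      omega
  -- the sum of the deficiencies
  have hdefA : ∑ v ∈ A (m - 1), (m - dg F v) = ∑ i ∈ Finset.Icc 1 (m - 1), (A i).card := by
    have h1 : ∀ i ∈ Finset.Icc 1 (m - 1), (A i).card =
        ∑ v ∈ A (m - 1), if dg F v ≤ i then 1 else 0 := by
      intro i hi
      rw [Finset.mem_Icc] at hi
      rw [← Finset.card_filter]
      congr 1
      ext v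
      constructor
      · intro h
        obtain ⟨h1, h2, h3⟩ := (memA i v).1 h
        exact Finset.mem_filter.2 ⟨(memA (m - 1) v).2 ⟨h1, h2, by omega⟩, h3⟩
      · intro h
        obtain ⟨h0, h3⟩ := Finset.mem_filter.1 h
        obtain ⟨h1, h2, _⟩ := (memA (m - 1) v).1 h0
        exact (memA i v).2 ⟨h1, h2, h3⟩
    rw [Finset.sum_congr rfl h1, Finset.sum_comm]
    refine Finset.sum_congr rfl fun v hv => ?_
    rw [← Finset.card_filter]
    have hv' := (memA (m - 1) v).1 hv
    have h2 : (Finset.Icc 1 (m - 1)).filter (fun i => dg F v ≤ i) = Finset.Icc (dg F v) (m - 1) := by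
      ext i
      simp only [Finset.mem_filter, Finset.mem_Icc]
      omega
    rw [h2, Nat.card_Icc]
    omega
  have htotal : ∑ v ∈ A (m - 1), (m - dg F v) + ∑ p ∈ PL, (m - dg F p) ≤ ∑ y, w y := by
    have h1 : ∑ p ∈ PL, (m - dg F p) ≤ PL.card * (m - 1) := by
      rw [← smul_eq_mul]
      refine Finset.sum_le_card_nsmul _ _ _ fun p hp => ?_
      rw [hPL, Finset.mem_filter] at hp
      omega
    have h2 : PL.card * (m - 1) ≤ ∑ y, (if y ∈ Y then 2 * (m - 1) else 0) := by
      rw [Finset.sum_ite_mem, Finset.univ_inter, Finset.sum_const, smul_eq_mul]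
      calc PL.card * (m - 1) ≤ 2 * Y.card * (m - 1) := Nat.mul_le_mul_right _ hPLc
        _ = Y.card * (2 * (m - 1)) := by ring
    have h3 : ∑ i ∈ Finset.Icc 1 (m - 1), (A i).card ≤
        ∑ y, ∑ i ∈ Finset.Icc 1 (m - 1), (if y ∈ N i then (i - 1 - s) else 0) := by
      rw [Finset.sum_comm]
      refine Finset.sum_le_sum fun i hi => ?_
      rw [Finset.mem_Icc] at hi
      rw [Finset.sum_ite_mem, Finset.univ_inter, Finset.sum_const, smul_eq_mul, mul_comm]
      exact hAc i (by omega)
    rw [hdefA]
    simp only [hw, Finset.sum_add_distrib]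
    omega
  -- the contradiction
  set X := univ.filter (fun v => 1 ≤ dg F v) with hX
  have hXne : X.Nonempty := ⟨u0, by simp [hX, dg_pos u0 v0 huv0]⟩
  have hsp1 := hsp X hXne
  have hsum : ∑ v ∈ X, (X.filter (fun w => F.Adj v w)).card = ∑ v ∈ X, dg F v := by
    refine Finset.sum_congr rfl fun v _ => ?_
    unfold dg
    congr 1
    ext w
    simp only [hX, Finset.mem_filter, Finset.mem_univ, true_and, and_iff_right_iff_imp]
    exact fun h => dg_pos w v h.symm
  rw [hsum] at hsp1
  have hAPL : Disjoint (A (m - 1)) PL := by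
    rw [Finset.disjoint_left]
    intro v hv hv'
    rw [hPL, Finset.mem_filter] at hv'
    exact ((memA _ _).1 hv).1 hv'.2.1
  have hlowX : A (m - 1) ∪ PL = X.filter (fun v => dg F v < m) := by
    ext v
    rw [Finset.mem_union, memA, hPL, Finset.mem_filter, Finset.mem_filter, hX, Finset.mem_filter]
    constructor
    · rintro (⟨_, h2, h3⟩ | ⟨_, _, h2, h3⟩)
      · exact ⟨⟨Finset.mem_univ _, h2⟩, by omega⟩
      · exact ⟨⟨Finset.mem_univ _, h2⟩, h3⟩
    · rintro ⟨⟨_, h2⟩, h3⟩
      by_cases hv : v ∈ P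
      · exact Or.inr ⟨Finset.mem_univ _, hv, h2, h3⟩
      · exact Or.inl ⟨hv, h2, by omega⟩
  have hdef : ∑ v ∈ X.filter (fun v => dg F v < m), (m - dg F v) ≤ ∑ y, w y := by
    rw [← hlowX, Finset.sum_union hAPL]
    exact htotal
  have hsurp : ∑ y, w y ≤ ∑ v ∈ X.filter (fun v => ¬ dg F v < m), (dg F v - m) := by
    have h1 : ∑ y, w y = ∑ y ∈ univ.filter (fun y => 0 < w y), w y := by
      symm
      refine Finset.sum_subset (Finset.filter_subset _ _) fun y _ hy => ?_
      rw [Finset.mem_filter] at hy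
      have : ¬ 0 < w y := fun h => hy ⟨Finset.mem_univ _, h⟩
      omega
    rw [h1]
    have h2 : univ.filter (fun y => 0 < w y) ⊆ X.filter (fun v => ¬ dg F v < m) := by
      intro y hy
      rw [Finset.mem_filter] at hy
      have h3 := hwt y hy.2
      rw [Finset.mem_filter, hX, Finset.mem_filter]
      exact ⟨⟨Finset.mem_univ _, by omega⟩, by omega⟩
    refine (Finset.sum_le_sum fun y hy => ?_).trans (Finset.sum_le_sum_of_subset h2)
    rw [Finset.mem_filter] at hy
    have h3 := hwt y hy.2
    omega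
  have hsplit : (∑ v ∈ X, dg F v) + ∑ v ∈ X.filter (fun v => dg F v < m), (m - dg F v) =
      m * X.card + ∑ v ∈ X.filter (fun v => ¬ dg F v < m), (dg F v - m) := by
    rw [← Finset.sum_filter_add_sum_filter_not X (fun v => dg F v < m) (fun v => dg F v)]
    have e1 : ∑ v ∈ X.filter (fun v => dg F v < m), dg F v +
        ∑ v ∈ X.filter (fun v => dg F v < m), (m - dg F v) =
        (X.filter (fun v => dg F v < m)).card * m := by
      rw [← Finset.sum_add_distrib, ← smul_eq_mul, ← Finset.sum_const]
      refine Finset.sum_congr rfl fun v hv => ?_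
      rw [Finset.mem_filter] at hv
      omega
    have e2 : ∑ v ∈ X.filter (fun v => ¬ dg F v < m), dg F v =
        (X.filter (fun v => ¬ dg F v < m)).card * m +
          ∑ v ∈ X.filter (fun v => ¬ dg F v < m), (dg F v - m) := by
      rw [← smul_eq_mul, ← Finset.sum_const, ← Finset.sum_add_distrib]
      refine Finset.sum_congr rfl fun v hv => ?_
      rw [Finset.mem_filter] at hv
      omega
    have e3 : (X.filter (fun v => dg F v < m)).card + (X.filter (fun v => ¬ dg F v < m)).card =
        X.card := Finset.card_filter_add_card_filter_not _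
    rw [e2, ← e3]
    linarith
  omega

end Pool.Agent.V1126.TC
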